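import Pool.Agent.Y566.ON.Fin

set_option autoImplicit false

/-!
# Ternary relations: linear orders with one ternary monotone relation are faithfully complete
-/

namespace Pool.Agent.Y558.MC.Tern

open Set MeasureTheory
open Pool.Agent.Y566.ON (XO OI FC OrdOf GA fc_GA)
open Pool.Agent.W889.VC (Str Iso VCof Dich)

/-- a binary and a ternary relation -/
abbrev YT : Type := (ℕ → ℕ → Bool) × (ℕ → ℕ → ℕ → Bool)

def TI (x y : YT) : Prop := ∃ σ : Equiv.Perm ℕ,
  (∀ m n, y.1 (σ m) (σ n) = x.1 m n) ∧ ∀ m n k, y.2 (σ m) (σ n) (σ k) = x.2 m n k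

/-- a strict linear order and a ternary relation which is decreasing in the first two arguments and
increasing in the third argument -/
structure TM (x : YT) : Prop where
  irr : ∀ m, x.1 m m = false
  tr : ∀ m n k, x.1 m n = true → x.1 n k = true → x.1 m k = true
  tot : ∀ m n, m = n ∨ x.1 m n = true ∨ x.1 n m = true
  first : ∀ m m' n k, x.1 m' m = true → x.2 m n k = true → x.2 m' n k = true
  second : ∀ m n n' k, x.1 n' n = true → x.2 m n k = true → x.2 m n' k = true
  third : ∀ m n k k', x.1 k k' = true → x.2 m n k = true → x.2 m n k' = true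

open Classical in
/-- coding -/
noncomputable def ph (x : XO) : YT :=
  (x.1, fun m n k => decide (x.2 m n = k ∨ x.1 (x.2 m n) k = true))

/-- `k` is the least element above `m`, `n` -/
def isL (y : YT) (m n k : ℕ) : Prop :=
  y.2 m n k = true ∧ ∀ l, y.2 m n l = true → k = l ∨ y.1 k l = true

open Classical in
/-- decoding -/
noncomputable def de (y : YT) : XO :=
  (y.1, fun m n => if h : ∃ k, isL y m n k then Nat.find h else 0)

theorem mb {W : Type} [MeasurableSpace W] {f : W → Bool} (hf : Measurable f) :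
    Measurable (fun w => f w = true) :=
  measurableSet_setOfPred.1 (hf (measurableSet_singleton true))

theorem m_isL (m n k : ℕ) : Measurable (fun y : YT => isL y m n k) := by
  unfold isL
  refine (mb ((measurable_pi_apply k).comp ((measurable_pi_apply n).comp
    ((measurable_pi_apply m).comp measurable_snd)))).and (Measurable.forall fun l =>
      (mb ((measurable_pi_apply l).comp ((measurable_pi_apply n).comp
    ((measurable_pi_apply m).comp measurable_snd)))).imp (measurable_const.or
      (mb ((measurable_pi_apply l).comp ((measurable_pi_apply k).comp measurable_fst)))))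

theorem de_iff (y : YT) (m n k : ℕ) : (de y).2 m n = k ↔
    ((isL y m n k ∧ ∀ j, j < k → ¬ isL y m n j) ∨ ((¬ ∃ j, isL y m n j) ∧ k = 0)) := by
  classical
  unfold de
  by_cases h : ∃ k, isL y m n k
  · simp only [dif_pos h]
    rw [Nat.find_eq_iff]
    constructor
    · exact fun h1 => Or.inl h1
    · rintro (h1 | h1)
      · exact h1
      · exact absurd h h1.1
  · simp only [dif_neg h]
    constructor
    · rintro rfl
      exact Or.inr ⟨h, rfl⟩
    · rintro (h1 | h1)
      · exact absurd ⟨k, h1.1⟩ h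
      · exact h1.2.symm

theorem m_de : Measurable de := by
  refine Measurable.prodMk measurable_fst ?_
  refine measurable_pi_iff.2 fun m => measurable_pi_iff.2 fun n => measurable_to_countable' ?_
  intro k
  have e : (fun y : YT => (de y).2 m n) ⁻¹' {k} = {y | (isL y m n k ∧ ∀ j, j < k → ¬ isL y m n j) ∨
      ((¬ ∃ j, isL y m n j) ∧ k = 0)} := by
    ext y
    exact de_iff y m n k
  show MeasurableSet ((fun y : YT => (de y).2 m n) ⁻¹' {k})
  rw [e]
  exact measurableSet_setOfPred.2 (((m_isL m n k).and (Measurable.forall fun j =>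
    measurable_const.imp (m_isL m n j).not)).or
      ((Measurable.exists fun j => m_isL m n j).not.and measurable_const))

/-- the linear orders among the first components -/
structure LO (x : XO) : Prop where
  irr : ∀ m, x.1 m m = false
  tr : ∀ m n k, x.1 m n = true → x.1 n k = true → x.1 m k = true
  tot : ∀ m n, m = n ∨ x.1 m n = true ∨ x.1 n m = true

theorem ph_iff (x : XO) (m n k : ℕ) :
    (ph x).2 m n k = true ↔ (x.2 m n = k ∨ x.1 (x.2 m n) k = true) := by
  unfold ph
  exact decide_eq_true_iff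

theorem de_ph {x : XO} (h : LO x) : de (ph x) = x := by
  refine Prod.ext rfl ?_
  funext m n
  have key : ∀ k, isL (ph x) m n k ↔ k = x.2 m n := by
    intro k
    constructor
    · rintro ⟨h1, h2⟩
      rw [ph_iff] at h1
      have h3 := h2 (x.2 m n) ((ph_iff _ _ _ _).2 (Or.inl rfl))
      rcases h3 with h3 | h3
      · exact h3
      · rcases h1 with h1 | h1
        · exact h1.symm
        · have h4 := h.tr _ _ _ h3 h1
          rw [h.irr] at h4
          exact absurd h4 (by decide)
    · rintro rfl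
      refine ⟨(ph_iff _ _ _ _).2 (Or.inl rfl), fun l hl => ?_⟩
      exact (ph_iff _ _ _ _).1 hl
  rw [de_iff]
  left
  refine ⟨(key _).2 rfl, fun j hj hj' => ?_⟩
  rw [(key j).1 hj'] at hj
  exact lt_irrefl _ hj

/-- isomorphism by a given permutation -/
def TIs (σ : Equiv.Perm ℕ) (x y : YT) : Prop :=
  (∀ m n, y.1 (σ m) (σ n) = x.1 m n) ∧ ∀ m n k, y.2 (σ m) (σ n) (σ k) = x.2 m n k

/-- transport -/
def tra (σ : Equiv.Perm ℕ) (x : XO) : XO :=
  (fun m n => x.1 (σ.symm m) (σ.symm n), fun m n => σ (x.2 (σ.symm m) (σ.symm n)))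

theorem oi_tra (σ : Equiv.Perm ℕ) (x : XO) : OI x (tra σ x) := by
  refine ⟨σ, fun m n => ?_, fun m n => ?_⟩
  · simp [tra]
  · simp [tra]

theorem lo_tra (σ : Equiv.Perm ℕ) {x : XO} (h : LO x) : LO (tra σ x) := by
  refine ⟨fun m => h.irr _, fun m n k => h.tr _ _ _, fun m n => ?_⟩
  rcases h.tot (σ.symm m) (σ.symm n) with h1 | h1
  · exact Or.inl (σ.symm.injective h1)
  · exact Or.inr h1

theorem ph_tra (σ : Equiv.Perm ℕ) (x : XO) : TIs σ (ph x) (ph (tra σ x)) := by
  refine ⟨fun m n => ?_, fun m n k => ?_⟩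
  · simp [ph, tra]
  · rw [Bool.eq_iff_iff, ph_iff, ph_iff]
    simp [tra]

theorem tis_unique {σ : Equiv.Perm ℕ} {y z z' : YT} (h : TIs σ y z) (h' : TIs σ y z') :
    z = z' := by
  refine Prod.ext ?_ ?_
  · funext m n
    obtain ⟨m, rfl⟩ := σ.surjective m
    obtain ⟨n, rfl⟩ := σ.surjective n
    rw [h.1, h'.1]
  · funext m n k
    obtain ⟨m, rfl⟩ := σ.surjective m
    obtain ⟨n, rfl⟩ := σ.surjective n
    obtain ⟨k, rfl⟩ := σ.surjective k
    rw [h.2, h'.2]

theorem ph_oi {x x' : XO} (h : OI x x') : TI (ph x) (ph x') := by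
  obtain ⟨σ, h1, h2⟩ := h
  refine ⟨σ, h1, fun m n k => ?_⟩
  rw [Bool.eq_iff_iff, ph_iff, ph_iff, h2, h1, σ.injective.eq_iff]

theorem ph_ti {x x' : XO} (h : LO x) (h' : LO x') (hT : TI (ph x) (ph x')) : OI x x' := by
  obtain ⟨σ, hσ⟩ := hT
  have e : ph x' = ph (tra σ x) := tis_unique hσ (ph_tra σ x)
  have e2 : x' = tra σ x := by rw [← de_ph h', e, de_ph (lo_tra σ h)]
  rw [e2]
  exact oi_tra σ x

theorem lo_of {A : Type} [AddCommGroup A] {x : XO} (h : OrdOf A x) : LO x := by
  obtain ⟨o, ho, e, h1, h2⟩ := h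
  refine ⟨fun m => ?_, fun m n k => ?_, fun m n => ?_⟩
  · rw [← Bool.not_eq_true, h1]
    exact lt_irrefl _
  · rw [h1, h1, h1]
    exact lt_trans
  · rw [h1, h1]
    rcases lt_trichotomy (e m) (e n) with h3 | h3 | h3
    · exact Or.inr (Or.inl h3)
    · exact Or.inl (e.injective h3)
    · exact Or.inr (Or.inr h3)

theorem tm_of {A : Type} [AddCommGroup A] {x : XO} (h : OrdOf A x) : TM (ph x) := by
  have hl := lo_of h
  obtain ⟨o, ho, e, h1, h2⟩ := h
  have key : ∀ m n k, (ph x).2 m n k = true ↔ e m + e n ≤ e k := by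
    intro m n k
    rw [ph_iff, h1, h2, le_iff_eq_or_lt, ← h2, e.injective.eq_iff]
  refine ⟨hl.irr, hl.tr, hl.tot, fun m m' n k h3 h4 => ?_, fun m n n' k h3 h4 => ?_,
    fun m n k k' h3 h4 => ?_⟩
  · rw [key] at h4 ⊢
    have h5 : e m' < e m := (h1 _ _).1 h3
    exact le_trans (add_le_add h5.le le_rfl) h4
  · rw [key] at h4 ⊢
    have h5 : e n' < e n := (h1 _ _).1 h3
    exact le_trans (add_le_add le_rfl h5.le) h4
  · rw [key] at h4 ⊢
    have h5 : e k < e k' := (h1 _ _).1 h3
    exact le_trans h4 h5.le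

theorem m_eq : MeasurableSet {y : YT | ph (de y) = y} := by
  have e : {y : YT | ph (de y) = y} = {y | ∀ m n k, (ph (de y)).2 m n k = true ↔ y.2 m n k = true} := by
    ext y
    constructor
    · intro h m n k
      have h' : ph (de y) = y := h
      rw [h']
    · intro h
      show ph (de y) = y
      refine Prod.ext rfl ?_
      funext m n k
      rw [Bool.eq_iff_iff]
      exact h m n k
  rw [e]
  refine measurableSet_setOfPred.2 (Measurable.forall fun m => Measurable.forall fun n =>
    Measurable.forall fun k => Measurable.iff ?_ (mb ((measurable_pi_apply k).comp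
      ((measurable_pi_apply n).comp ((measurable_pi_apply m).comp measurable_snd)))))
  have e2 : (fun y : YT => (ph (de y)).2 m n k = true) = fun y => ∃ j, (de y).2 m n = j ∧
      (j = k ∨ y.1 j k = true) := by
    funext y
    refine propext ?_
    rw [ph_iff]
    constructor
    · exact fun h => ⟨_, rfl, h⟩
    · rintro ⟨j, rfl, h⟩
      exact h
  rw [e2]
  refine Measurable.exists fun j => Measurable.and ?_ (measurable_const.or
    (mb ((measurable_pi_apply k).comp ((measurable_pi_apply j).comp measurable_fst))))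
  have e3 : (fun y : YT => (de y).2 m n = j) = fun y => (isL y m n j ∧ ∀ i, i < j → ¬ isL y m n i) ∨
      ((¬ ∃ i, isL y m n i) ∧ j = 0) := by
    funext y
    exact propext (de_iff y m n j)
  rw [e3]
  exact ((m_isL m n j).and (Measurable.forall fun i =>
    measurable_const.imp (m_isL m n i).not)).or
      ((Measurable.exists fun i => m_isL m n i).not.and measurable_const)

theorem fc_tern : FC TI TM := by
  intro a B hB hinv
  obtain ⟨B₀, F₀, k1, k2, k3, k4, k5, k6, k7⟩ := fc_GA a B hB hinv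
  have hst : ∀ y z, TI y z → (de y ∈ B₀ ∧ ph (de y) = y) → (de z ∈ B₀ ∧ ph (de z) = z) := by
    rintro y z ⟨σ, hσ⟩ ⟨hy, hy'⟩
    have hlo := lo_of (k3 _ hy)
    have hσ' : TIs σ (ph (de y)) z := by rw [hy']; exact hσ
    have e : z = ph (tra σ (de y)) := tis_unique hσ' (ph_tra σ (de y))
    have e2 : de z = tra σ (de y) := by rw [e, de_ph (lo_tra σ hlo)]
    refine ⟨?_, ?_⟩
    · rw [e2]
      exact (k2 _ _ (oi_tra σ (de y))).1 hy
    · rw [e2, ← e]
  have hsym : ∀ y z, TI y z → TI z y := by
    rintro y z ⟨σ, h1, h2⟩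
    refine ⟨σ.symm, fun m n => ?_, fun m n k => ?_⟩
    · rw [← h1, Equiv.apply_symm_apply, Equiv.apply_symm_apply]
    · rw [← h2, Equiv.apply_symm_apply, Equiv.apply_symm_apply, Equiv.apply_symm_apply]
  refine ⟨(de ⁻¹' B₀) ∩ {y | ph (de y) = y}, F₀ ∘ de, (m_de k1).inter m_eq,
    fun y z hyz => ⟨hst y z hyz, hst z y (hsym y z hyz)⟩, ?_, k4.comp m_de, fun y hy => k5 _ hy.1,
    ?_, ?_⟩
  · rintro y ⟨hy, hy'⟩
    have h1 := tm_of (k3 _ hy)
    have h2 : ph (de y) = y := hy'
    rw [h2] at h1
    exact h1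
  · rintro y ⟨hy, hy'⟩ z ⟨hz, hz'⟩
    have h1 := k6 _ hy _ hz
    show TI y z ↔ Iso (F₀ (de y)) (F₀ (de z))
    rw [← h1]
    have e1 : ph (de y) = y := hy'
    have e2 : ph (de z) = z := hz'
    constructor
    · intro h
      rw [← e1, ← e2] at h
      exact ph_ti (lo_of (k3 _ hy)) (lo_of (k3 _ hz)) h
    · intro h
      rw [← e1, ← e2]
      exact ph_oi h
  · intro x hx
    obtain ⟨y, hy, hxy⟩ := k7 x hx
    have e1 := de_ph (lo_of (k3 _ hy))
    refine ⟨ph y, ⟨?_, ?_⟩, ?_⟩
    · show de (ph y) ∈ B₀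
      rw [e1]
      exact hy
    · show ph (de (ph y)) = ph y
      rw [e1]
    · show Iso x (F₀ (de (ph y)))
      rw [e1]
      exact hxy

theorem full_of_tern (h : VCof True TI TM) (a : ℕ → ℕ) :
    VCof True (Iso (a := a)) (fun _ => True) := by
  have b1 : BorelSpace (ℕ → Bool) := Pi.borelSpace
  have b2 : BorelSpace (ℕ → ℕ → Bool) := Pi.borelSpace
  have b3 : BorelSpace (ℕ → ℕ → ℕ → Bool) := Pi.borelSpace
  have b4 : BorelSpace YT := Prod.borelSpace
  exact FC.vaught fc_tern h a

end Pool.Agent.Y558.MC.Tern
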