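import Pool.Agent.Y558.MC.Sort

set_option autoImplicit false

/-!
# The final form for sorted structures
-/

namespace Pool.Agent.Y558.MC

open Set MeasureTheory
open Pool.Agent.H533R2.VO (RS Dich VC RIso)
open Pool.Agent.H566P (ar R2 v2 lt ac co mk)
open Pool.Agent.Y560.TG (lt_mk ac_mk co_mk R2_ext riso_iff meas_into cont_into)
open Pool.Agent.H533R2.VS (US UIso UDich VCu Coan Inv act)

/-- binary relations, parts, unary predicates -/
abbrev XS : Type := (ℕ → ℕ → ℕ → Bool) × (ℕ → ℕ → Bool) × (ℕ → ℕ → Bool)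

structure SO (x : XS) : Prop where
  cover : ∀ m, ∃ p, x.2.1 p m = true
  irr : ∀ m, x.1 0 m m = false
  tr : ∀ p m n k, x.2.1 p m = true → x.2.1 p n = true → x.2.1 p k = true →
    x.1 0 m n = true → x.1 0 n k = true → x.1 0 m k = true
  tot : ∀ p m n, x.2.1 p m = true → x.2.1 p n = true →
    m = n ∨ x.1 0 m n = true ∨ x.1 0 n m = true
  fst : ∀ i p q,
    (∀ m m' n, x.2.1 p m = true → x.2.1 p m' = true → x.2.1 q n = true → x.1 0 m m' = true →
      x.1 i m n = true → x.1 i m' n = true) ∨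
    (∀ m m' n, x.2.1 p m = true → x.2.1 p m' = true → x.2.1 q n = true → x.1 0 m' m = true →
      x.1 i m n = true → x.1 i m' n = true)
  snd : ∀ i p q,
    (∀ m n n', x.2.1 p m = true → x.2.1 q n = true → x.2.1 q n' = true → x.1 0 n n' = true →
      x.1 i m n = true → x.1 i m n' = true) ∨
    (∀ m n n', x.2.1 p m = true → x.2.1 q n = true → x.2.1 q n' = true → x.1 0 n' n = true →
      x.1 i m n = true → x.1 i m n' = true)

def IsoS (σ : Equiv.Perm ℕ) (x y : XS) : Prop :=
  (∀ i m n, y.1 i (σ m) (σ n) = x.1 i m n) ∧ (∀ p m, y.2.1 p (σ m) = x.2.1 p m) ∧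
    ∀ j m, y.2.2 j (σ m) = x.2.2 j m

noncomputable def toU (x : XS) : US ar :=
  (mk (fun m n => x.1 0 m n = true) (fun k m n => x.1 (k + 1) m n = true)
    (fun p m => x.2.1 p m = true), x.2.2)

def ofU (z : US ar) : XS :=
  (fun i m n => match i with
    | 0 => z.1 0 (v2 0 m n)
    | k + 1 => z.1 (2 * k + 1) (v2 (2 * k + 1) m n),
    fun i m => z.1 (2 * i + 2) (v2 (2 * i + 2) m m), z.2)

theorem toU_ofU (z : US ar) : toU (ofU z) = z := by
  refine Prod.ext (R2_ext ?_ ?_ ?_) rfl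
  · intro m n
    simp only [toU, lt_mk]
    rfl
  · intro k m n
    simp only [toU, ac_mk]
    rfl
  · intro k m
    simp only [toU, co_mk]
    rfl

theorem ofU_toU (x : XS) : ofU (toU x) = x := by
  refine Prod.ext ?_ (Prod.ext ?_ rfl)
  · funext i m n
    rw [Bool.eq_iff_iff]
    rcases i with _ | k
    · show lt (mk (fun m n => x.1 0 m n = true) (fun k m n => x.1 (k + 1) m n = true)
        (fun p m => x.2.1 p m = true)) m n ↔ _
      rw [lt_mk]
    · show ac (mk (fun m n => x.1 0 m n = true) (fun k m n => x.1 (k + 1) m n = true)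
        (fun p m => x.2.1 p m = true)) k m n ↔ _
      rw [ac_mk]
  · funext p m
    rw [Bool.eq_iff_iff]
    show co (mk (fun m n => x.1 0 m n = true) (fun k m n => x.1 (k + 1) m n = true)
        (fun p m => x.2.1 p m = true)) p m ↔ _
    rw [co_mk]

theorem cont_ofU : Continuous ofU := by
  refine Continuous.prodMk ?_ (Continuous.prodMk ?_ continuous_snd)
  · refine continuous_pi fun i => continuous_pi fun m => continuous_pi fun n => ?_
    rcases i with _ | k
    · exact (continuous_apply _).comp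
        ((continuous_apply (A := fun i => (Fin (ar i) → ℕ) → Bool) 0).comp continuous_fst)
    · exact (continuous_apply _).comp
        ((continuous_apply (A := fun i => (Fin (ar i) → ℕ) → Bool) (2 * k + 1)).comp
          continuous_fst)
  · refine continuous_pi fun i => continuous_pi fun m => ?_
    exact (continuous_apply _).comp
      ((continuous_apply (A := fun i => (Fin (ar i) → ℕ) → Bool) (2 * i + 2)).comp
        continuous_fst)

theorem meas_ofU : Measurable ofU := by
  refine Measurable.prodMk ?_ (Measurable.prodMk ?_ measurable_snd)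
  · refine measurable_pi_iff.2 fun i => measurable_pi_iff.2 fun m => measurable_pi_iff.2 fun n => ?_
    rcases i with _ | k
    · exact (measurable_pi_apply _).comp
        ((measurable_pi_apply (X := fun i => (Fin (ar i) → ℕ) → Bool) 0).comp measurable_fst)
    · exact (measurable_pi_apply _).comp
        ((measurable_pi_apply (X := fun i => (Fin (ar i) → ℕ) → Bool) (2 * k + 1)).comp
          measurable_fst)
  · refine measurable_pi_iff.2 fun i => measurable_pi_iff.2 fun m => ?_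
    exact (measurable_pi_apply _).comp
      ((measurable_pi_apply (X := fun i => (Fin (ar i) → ℕ) → Bool) (2 * i + 2)).comp
        measurable_fst)

theorem UIso_iff (x y : US ar) : UIso x y ↔ ∃ σ : Equiv.Perm ℕ, IsoS σ (ofU x) (ofU y) := by
  rw [Pool.Agent.Y558.MB.UIso_iff]
  refine exists_congr fun σ => ?_
  constructor
  · rintro ⟨⟨h1, h2, h3⟩, h4⟩
    refine ⟨fun i m n => ?_, fun p m => Bool.eq_iff_iff.2 (h3 p m), h4⟩
    rcases i with _ | k
    · exact Bool.eq_iff_iff.2 (h1 m n)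
    · exact Bool.eq_iff_iff.2 (h2 k m n)
  · rintro ⟨h1, h2, h3⟩
    exact ⟨⟨fun m n => Bool.eq_iff_iff.1 (h1 0 m n), fun k m n => Bool.eq_iff_iff.1 (h1 (k + 1) m n),
      fun k m => Bool.eq_iff_iff.1 (h2 k m)⟩, h3⟩

theorem MS_of {z : US ar} (h : SO (ofU z)) : MS z.1 := by
  have hr : ∀ i m n, rel z.1 i m n ↔ (ofU z).1 i m n = true := by
    intro i m n
    rcases i with _ | k
    · rfl
    · rfl
  have hl : ∀ m n, lt z.1 m n ↔ (ofU z).1 0 m n = true := fun m n => Iff.rfl
  have hc : ∀ p m, co z.1 p m ↔ (ofU z).2.1 p m = true := fun p m => Iff.rfl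
  refine ⟨?_, ?_, ?_, ?_, ?_, ?_⟩
  · simp only [hc]
    exact h.cover
  · intro m
    rw [hl, h.irr]
    decide
  · simp only [hc, hl]
    exact h.tr
  · simp only [hc, hl]
    exact h.tot
  · simp only [hc, hl, hr]
    exact h.fst
  · simp only [hc, hl, hr]
    exact h.snd

theorem outS (B : Set XS) (hB : MeasurableSet B) (hM : ∀ x ∈ B, SO x)
    (hi : ∀ x ∈ B, ∀ (y : XS) (σ : Equiv.Perm ℕ), IsoS σ x y → y ∈ B) :
    (∃ f : ℕ → XS, ∀ x ∈ B, ∃ (n : ℕ) (σ : Equiv.Perm ℕ), IsoS σ (f n) x) ∨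
    (∃ c : (ℕ → Bool) → XS, Continuous c ∧ (∀ a, c a ∈ B) ∧
      ∀ a b, (∃ σ : Equiv.Perm ℕ, IsoS σ (c a) (c b)) → a = b) := by
  have hsym : ∀ (x y : XS) (σ : Equiv.Perm ℕ), IsoS σ x y → IsoS σ.symm y x := by
    intro x y σ h
    refine ⟨fun i m n => ?_, fun p m => ?_, fun j m => ?_⟩
    · rw [← h.1, Equiv.apply_symm_apply, Equiv.apply_symm_apply]
    · rw [← h.2.1, Equiv.apply_symm_apply]
    · rw [← h.2.2, Equiv.apply_symm_apply]
  rcases vcu_MS (ofU ⁻¹' B) (meas_ofU hB) (fun x y hxy => by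
      obtain ⟨σ, hσ⟩ := (UIso_iff x y).1 hxy
      exact ⟨fun h => hi _ h _ σ hσ, fun h => hi _ h _ _ (hsym _ _ _ hσ)⟩)
    (fun x hx => MS_of (hM _ hx)) with ⟨f, hf⟩ | ⟨c, hc, hcB, hcI⟩
  · left
    refine ⟨fun n => ofU (f n), fun x hx => ?_⟩
    obtain ⟨n, hn⟩ := hf (toU x) (by show ofU (toU x) ∈ B; rw [ofU_toU]; exact hx)
    obtain ⟨σ, hσ⟩ := (UIso_iff _ _).1 hn
    rw [ofU_toU] at hσ
    exact ⟨n, σ, hσ⟩
  · right
    exact ⟨fun α => ofU (c α), cont_ofU.comp hc, hcB, fun α β h => hcI α β ((UIso_iff _ _).2 h)⟩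

end Pool.Agent.Y558.MC
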