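import Pool.Agent.Y558.MC.Vcm
import Pool.Agent.Y558.MB.Tw

set_option autoImplicit false

/-!
# Sorted structures: countably many chains, all relations monotone in each argument
-/

namespace Pool.Agent.Y558.MC

open Set MeasureTheory
open Pool.Agent.H533R2.VO (RS Dich VC RIso)
open Pool.Agent.H566P (ar R2 v2 lt ac co mk)
open Pool.Agent.Y560.TG (lt_mk ac_mk co_mk R2_ext riso_iff meas_into cont_into)
open Pool.Agent.H533R2.VS (US UIso UDich VCu Coan Inv act)
open Pool.Agent.Y558.MB (mset_lt mset_ac mset_co IsI isI_act isI_iff)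
open Pool.Agent.TH425.FF (PCanon PExp)

/-- all relations -/
def rel (z : R2) (i m n : ℕ) : Prop := if i = 0 then lt z m n else ac z (i - 1) m n

/-- the first part containing `m` is the part `p` -/
def pat (z : R2) (p m : ℕ) : Prop := co z p m ∧ ∀ q, q < p → ¬ co z q m

/-- sorted structures -/
structure MS (z : R2) : Prop where
  cover : ∀ m, ∃ p, co z p m
  irr : ∀ m, ¬ lt z m m
  tr : ∀ p m n k, co z p m → co z p n → co z p k → lt z m n → lt z n k → lt z m k
  tot : ∀ p m n, co z p m → co z p n → m = n ∨ lt z m n ∨ lt z n m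
  fst : ∀ i p q, (∀ m m' n, co z p m → co z p m' → co z q n → lt z m m' →
      rel z i m n → rel z i m' n) ∨
    (∀ m m' n, co z p m → co z p m' → co z q n → lt z m' m → rel z i m n → rel z i m' n)
  snd : ∀ i p q, (∀ m n n', co z p m → co z q n → co z q n' → lt z n n' →
      rel z i m n → rel z i m n') ∨
    (∀ m n n', co z p m → co z q n → co z q n' → lt z n' n → rel z i m n → rel z i m n')

/-- the global order -/
def lt' (z : R2) (m n : ℕ) : Prop :=
  ∃ p q, pat z p m ∧ pat z q n ∧ (p < q ∨ (p = q ∧ lt z m n))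

def inc1 (z : R2) (i p q : ℕ) : Prop := ∀ m m' n, pat z p m → pat z p m' → pat z q n →
  lt z m m' → rel z i m n → rel z i m' n
def dec1 (z : R2) (i p q : ℕ) : Prop := ∀ m m' n, pat z p m → pat z p m' → pat z q n →
  lt z m' m → rel z i m n → rel z i m' n
def inc2 (z : R2) (i p q : ℕ) : Prop := ∀ m n n', pat z p m → pat z q n → pat z q n' →
  lt z n n' → rel z i m n → rel z i m n'
def dec2 (z : R2) (i p q : ℕ) : Prop := ∀ m n n', pat z p m → pat z q n → pat z q n' →
  lt z n' n → rel z i m n → rel z i m n'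

/-- the type `c` of a relation between two parts -/
def Ty (z : R2) (c i p q : ℕ) : Prop :=
  ((c = 0 ∨ c = 3) → dec1 z i p q) ∧ ((c = 1 ∨ c = 2) → inc1 z i p q) ∧
  ((c = 0 ∨ c = 1) → inc2 z i p q) ∧ ((c = 2 ∨ c = 3) → dec2 z i p q)

/-- the relation or its complement, between two parts -/
def bas (z : R2) (c i p q m n : ℕ) : Prop :=
  pat z p m ∧ pat z q n ∧ (rel z i m n ↔ c < 2)

/-- the monotone hull -/
def hul (z : R2) (c i p q m n : ℕ) : Prop :=
  Ty z c i p q ∧ ∃ m1 n1, bas z c i p q m1 n1 ∧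
    (m = m1 ∨ (c % 2 = 0 ∧ lt' z m m1) ∨ (c % 2 ≠ 0 ∧ lt' z m1 m)) ∧ (n = n1 ∨ lt' z n1 n)

/-- decoding of numbers -/
def kc (k : ℕ) : ℕ := k % 4
def ki (k : ℕ) : ℕ := (k / 4).unpair.1
def kp (k : ℕ) : ℕ := (k / 4).unpair.2.unpair.1
def kq (k : ℕ) : ℕ := (k / 4).unpair.2.unpair.2
/-- coding -/
def kk (c i p q : ℕ) : ℕ := 4 * Nat.pair i (Nat.pair p q) + c

theorem kc_kk {c : ℕ} (hc : c < 4) (i p q : ℕ) : kc (kk c i p q) = c := by
  unfold kc kk
  omega

theorem kk_div {c : ℕ} (hc : c < 4) (i p q : ℕ) : kk c i p q / 4 = Nat.pair i (Nat.pair p q) := by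
  unfold kk
  omega

theorem ki_kk {c : ℕ} (hc : c < 4) (i p q : ℕ) : ki (kk c i p q) = i := by
  unfold ki
  rw [kk_div hc, Nat.unpair_pair]

theorem kp_kk {c : ℕ} (hc : c < 4) (i p q : ℕ) : kp (kk c i p q) = p := by
  unfold kp
  rw [kk_div hc, Nat.unpair_pair]
  show (Nat.pair p q).unpair.1 = p
  rw [Nat.unpair_pair]

theorem kq_kk {c : ℕ} (hc : c < 4) (i p q : ℕ) : kq (kk c i p q) = q := by
  unfold kq
  rw [kk_div hc, Nat.unpair_pair]
  show (Nat.pair p q).unpair.2 = q
  rw [Nat.unpair_pair]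

noncomputable def cS (z : R2) : R2 :=
  mk (lt' z) (fun k m n => hul z (kc k) (ki k) (kp k) (kq k) m n)
    (fun j m => if j % 2 = 0 then co z (j / 2) m else
      Ty z (kc (j / 2)) (ki (j / 2)) (kp (j / 2)) (kq (j / 2)))

def pat' (z : R2) (p m : ℕ) : Prop := co z (2 * p) m ∧ ∀ q, q < p → ¬ co z (2 * q) m

def relD (z : R2) (i m n : ℕ) : Prop := ∃ p q c, c < 4 ∧ pat' z p m ∧ pat' z q n ∧
  co z (2 * kk c i p q + 1) m ∧ (ac z (kk c i p q) m n ↔ c < 2)

noncomputable def dS (z : R2) : R2 :=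
  mk (relD z 0) (fun i m n => relD z (i + 1) m n) (fun p m => co z (2 * p) m)

/-! ### Equivariance -/

section
variable {σ : Equiv.Perm ℕ} {R R' : R2}

theorem i_rel (h : IsI σ R R') (i m n : ℕ) : rel R' i (σ m) (σ n) ↔ rel R i m n := by
  unfold rel
  split_ifs
  · exact h.1 m n
  · exact h.2.1 _ m n

theorem i_pat (h : IsI σ R R') (p m : ℕ) : pat R' p (σ m) ↔ pat R p m := by
  unfold pat
  simp only [h.2.2]

theorem i_lt' (h : IsI σ R R') (m n : ℕ) : lt' R' (σ m) (σ n) ↔ lt' R m n := by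
  unfold lt'
  simp only [i_pat h, h.1]

theorem i_inc1 (h : IsI σ R R') (i p q : ℕ) : inc1 R' i p q ↔ inc1 R i p q := by
  unfold inc1
  rw [σ.surjective.forall₃]
  simp only [i_pat h, h.1, i_rel h]

theorem i_dec1 (h : IsI σ R R') (i p q : ℕ) : dec1 R' i p q ↔ dec1 R i p q := by
  unfold dec1
  rw [σ.surjective.forall₃]
  simp only [i_pat h, h.1, i_rel h]

theorem i_inc2 (h : IsI σ R R') (i p q : ℕ) : inc2 R' i p q ↔ inc2 R i p q := by
  unfold inc2
  rw [σ.surjective.forall₃]
  simp only [i_pat h, h.1, i_rel h]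

theorem i_dec2 (h : IsI σ R R') (i p q : ℕ) : dec2 R' i p q ↔ dec2 R i p q := by
  unfold dec2
  rw [σ.surjective.forall₃]
  simp only [i_pat h, h.1, i_rel h]

theorem i_Ty (h : IsI σ R R') (c i p q : ℕ) : Ty R' c i p q ↔ Ty R c i p q := by
  unfold Ty
  simp only [i_inc1 h, i_dec1 h, i_inc2 h, i_dec2 h]

theorem i_bas (h : IsI σ R R') (c i p q m n : ℕ) :
    bas R' c i p q (σ m) (σ n) ↔ bas R c i p q m n := by
  unfold bas
  simp only [i_pat h, i_rel h]

theorem i_hul (h : IsI σ R R') (c i p q m n : ℕ) :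
    hul R' c i p q (σ m) (σ n) ↔ hul R c i p q m n := by
  unfold hul
  rw [σ.surjective.exists₂]
  simp only [i_Ty h, i_bas h, i_lt' h, σ.injective.eq_iff]

theorem i_cS (h : IsI σ R R') : IsI σ (cS R) (cS R') := by
  refine ⟨fun x y => ?_, fun n x y => ?_, fun n x => ?_⟩
  · simp only [cS, lt_mk, i_lt' h]
  · simp only [cS, ac_mk, i_hul h]
  · simp only [cS, co_mk, h.2.2, i_Ty h]

theorem i_relD (h : IsI σ R R') (i m n : ℕ) : relD R' i (σ m) (σ n) ↔ relD R i m n := by
  unfold relD pat'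
  simp only [h.2.2, h.2.1]

theorem i_dS (h : IsI σ R R') : IsI σ (dS R) (dS R') := by
  refine ⟨fun x y => ?_, fun n x y => ?_, fun n x => ?_⟩
  · simp only [dS, lt_mk, i_relD h]
  · simp only [dS, ac_mk, i_relD h]
  · simp only [dS, co_mk, h.2.2]

end

/-! ### Measurability -/

theorem m_rel (i m n : ℕ) : Measurable (fun R : R2 => rel R i m n) := by
  unfold rel
  split_ifs
  · exact mset_lt m n
  · exact mset_ac _ m n

theorem m_pat (p m : ℕ) : Measurable (fun R : R2 => pat R p m) := by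
  unfold pat
  exact (mset_co p m).and (Measurable.forall fun q => measurable_const.imp (mset_co q m).not)

theorem m_lt' (m n : ℕ) : Measurable (fun R : R2 => lt' R m n) := by
  unfold lt'
  exact Measurable.exists fun p => Measurable.exists fun q => (m_pat p m).and ((m_pat q n).and
    (measurable_const.or (measurable_const.and (mset_lt m n))))

theorem m_inc1 (i p q : ℕ) : Measurable (fun R : R2 => inc1 R i p q) := by
  unfold inc1
  exact Measurable.forall fun a => Measurable.forall fun b => Measurable.forall fun c =>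
    (m_pat p a).imp ((m_pat p b).imp ((m_pat q c).imp ((mset_lt _ _).imp
      ((m_rel i _ _).imp (m_rel i _ _)))))

theorem m_dec1 (i p q : ℕ) : Measurable (fun R : R2 => dec1 R i p q) := by
  unfold dec1
  exact Measurable.forall fun a => Measurable.forall fun b => Measurable.forall fun c =>
    (m_pat p a).imp ((m_pat p b).imp ((m_pat q c).imp ((mset_lt _ _).imp
      ((m_rel i _ _).imp (m_rel i _ _)))))

theorem m_inc2 (i p q : ℕ) : Measurable (fun R : R2 => inc2 R i p q) := by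
  unfold inc2
  exact Measurable.forall fun a => Measurable.forall fun b => Measurable.forall fun c =>
    (m_pat p a).imp ((m_pat q b).imp ((m_pat q c).imp ((mset_lt _ _).imp
      ((m_rel i _ _).imp (m_rel i _ _)))))

theorem m_dec2 (i p q : ℕ) : Measurable (fun R : R2 => dec2 R i p q) := by
  unfold dec2
  exact Measurable.forall fun a => Measurable.forall fun b => Measurable.forall fun c =>
    (m_pat p a).imp ((m_pat q b).imp ((m_pat q c).imp ((mset_lt _ _).imp
      ((m_rel i _ _).imp (m_rel i _ _)))))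

theorem m_Ty (c i p q : ℕ) : Measurable (fun R : R2 => Ty R c i p q) := by
  unfold Ty
  exact (measurable_const.imp (m_dec1 i p q)).and ((measurable_const.imp (m_inc1 i p q)).and
    ((measurable_const.imp (m_inc2 i p q)).and (measurable_const.imp (m_dec2 i p q))))

theorem m_bas (c i p q m n : ℕ) : Measurable (fun R : R2 => bas R c i p q m n) := by
  unfold bas
  exact (m_pat p m).and ((m_pat q n).and ((m_rel i m n).iff measurable_const))

theorem m_hul (c i p q m n : ℕ) : Measurable (fun R : R2 => hul R c i p q m n) := by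
  unfold hul
  exact (m_Ty c i p q).and (Measurable.exists fun m1 => Measurable.exists fun n1 =>
    (m_bas c i p q m1 n1).and ((measurable_const.or ((measurable_const.and (m_lt' m m1)).or
      (measurable_const.and (m_lt' m1 m)))).and (measurable_const.or (m_lt' n1 n))))

theorem m_cS : Measurable cS := by
  refine meas_into ?_ ?_ ?_
  · intro x y
    simp only [cS, lt_mk]
    exact measurableSet_setOfPred.2 (m_lt' x y)
  · intro n x y
    simp only [cS, ac_mk]
    exact measurableSet_setOfPred.2 (m_hul _ _ _ _ x y)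
  · intro n x
    simp only [cS, co_mk]
    refine measurableSet_setOfPred.2 ?_
    split_ifs
    · exact mset_co _ x
    · exact m_Ty _ _ _ _

theorem m_pat' (p m : ℕ) : Measurable (fun R : R2 => pat' R p m) := by
  unfold pat'
  exact (mset_co _ m).and (Measurable.forall fun q => measurable_const.imp (mset_co _ m).not)

theorem m_relD (i m n : ℕ) : Measurable (fun R : R2 => relD R i m n) := by
  unfold relD
  exact Measurable.exists fun p => Measurable.exists fun q => Measurable.exists fun c =>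
    measurable_const.and ((m_pat' p m).and ((m_pat' q n).and ((mset_co _ m).and
      ((mset_ac _ m n).iff measurable_const))))

theorem m_dS : Measurable dS := by
  refine meas_into ?_ ?_ ?_
  · intro x y
    simp only [dS, lt_mk]
    exact measurableSet_setOfPred.2 (m_relD _ x y)
  · intro n x y
    simp only [dS, ac_mk]
    exact measurableSet_setOfPred.2 (m_relD _ x y)
  · intro n x
    simp only [dS, co_mk]
    exact measurableSet_setOfPred.2 (mset_co _ x)

theorem pcS : PCanon (fun _ : List ℕ => cS) (fun _ : List ℕ => dS) where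
  meas _ := m_cS
  dmeas _ := m_dS
  cact σ _ x := isI_iff.1 (i_cS (isI_act σ x))
  dact σ _ x := isI_iff.1 (i_dS (isI_act σ x))

/-! ### The coding -/

section
variable {z : R2}

theorem pat_unique {p q m : ℕ} (h1 : pat z p m) (h2 : pat z q m) : p = q := by
  rcases Nat.lt_trichotomy p q with h | h | h
  · exact absurd h1.1 (h2.2 p h)
  · exact h
  · exact absurd h2.1 (h1.2 q h)

theorem pat_exists (h : MS z) (m : ℕ) : ∃ p, pat z p m := by
  classical
  exact ⟨Nat.find (h.cover m), Nat.find_spec (h.cover m), fun q hq => Nat.find_min (h.cover m) hq⟩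

theorem lt'_same {p m n : ℕ} (hm : pat z p m) (hn : pat z p n) : lt' z m n ↔ lt z m n := by
  constructor
  · rintro ⟨a, b, ha, hb, h1 | ⟨-, h1⟩⟩
    · rw [pat_unique ha hm, pat_unique hb hn] at h1
      exact absurd h1 (lt_irrefl _)
    · exact h1
  · intro h1
    exact ⟨p, p, hm, hn, Or.inr ⟨rfl, h1⟩⟩

theorem lt'_irr (h : MS z) (m : ℕ) : ¬ lt' z m m := by
  obtain ⟨p, hp⟩ := pat_exists h m
  rw [lt'_same hp hp]
  exact h.irr m

theorem lt'_tr (h : MS z) {m n k : ℕ} (h1 : lt' z m n) (h2 : lt' z n k) : lt' z m k := by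
  obtain ⟨p, q, hp, hq, h1⟩ := h1
  obtain ⟨q', r, hq', hr, h2⟩ := h2
  rw [← pat_unique hq hq'] at h2
  refine ⟨p, r, hp, hr, ?_⟩
  rcases h1 with h1 | ⟨rfl, h1⟩ <;> rcases h2 with h2 | ⟨rfl, h2⟩
  · exact Or.inl (h1.trans h2)
  · exact Or.inl h1
  · exact Or.inl h2
  · exact Or.inr ⟨rfl, h.tr _ _ _ _ hp.1 hq.1 hr.1 h1 h2⟩

theorem lt'_tot (h : MS z) (m n : ℕ) : m = n ∨ lt' z m n ∨ lt' z n m := by
  obtain ⟨p, hp⟩ := pat_exists h m
  obtain ⟨q, hq⟩ := pat_exists h n
  rcases Nat.lt_trichotomy p q with h1 | rfl | h1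
  · exact Or.inr (Or.inl ⟨p, q, hp, hq, Or.inl h1⟩)
  · rw [lt'_same hp hq, lt'_same hq hp]
    exact h.tot p m n hp.1 hq.1
  · exact Or.inr (Or.inr ⟨q, p, hq, hp, Or.inl h1⟩)

theorem MAr_cS (h : MS z) : MAr (cS z) := by
  refine ⟨fun m => ?_, fun m n k => ?_, fun m n => ?_, fun i m m' n hi => ?_,
    fun i m m' n hi => ?_, fun i m n n' => ?_⟩
  · simp only [cS, lt_mk]
    exact lt'_irr h m
  · simp only [cS, lt_mk]
    exact fun h1 h2 => lt'_tr h h1 h2
  · simp only [cS, lt_mk]
    exact lt'_tot h m n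
  · simp only [cS, lt_mk, ac_mk]
    rintro h1 ⟨h2, m1, n1, h3, h4, h5⟩
    have hc : kc i % 2 = 0 := by unfold kc; omega
    refine ⟨h2, m1, n1, h3, ?_, h5⟩
    rcases h4 with rfl | ⟨-, h4⟩ | ⟨h4, -⟩
    · exact Or.inr (Or.inl ⟨hc, h1⟩)
    · exact Or.inr (Or.inl ⟨hc, lt'_tr h h1 h4⟩)
    · exact absurd hc h4
  · simp only [cS, lt_mk, ac_mk]
    rintro h1 ⟨h2, m1, n1, h3, h4, h5⟩
    have hc : kc i % 2 ≠ 0 := by unfold kc; omega
    refine ⟨h2, m1, n1, h3, ?_, h5⟩
    rcases h4 with rfl | ⟨h4, -⟩ | ⟨-, h4⟩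
    · exact Or.inr (Or.inr ⟨hc, h1⟩)
    · exact absurd h4 hc
    · exact Or.inr (Or.inr ⟨hc, lt'_tr h h4 h1⟩)
  · simp only [cS, lt_mk, ac_mk]
    rintro h1 ⟨h2, m1, n1, h3, h4, h5⟩
    refine ⟨h2, m1, n1, h3, h4, ?_⟩
    rcases h5 with rfl | h5
    · exact Or.inr h1
    · exact Or.inr (lt'_tr h h5 h1)

/-- inside its two parts the hull adds nothing -/
theorem hul_iff {c i p q m n : ℕ} (hc : c < 4) (hT : Ty z c i p q) (hm : pat z p m)
    (hn : pat z q n) : hul z c i p q m n ↔ (rel z i m n ↔ c < 2) := by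
  constructor
  · rintro ⟨-, m1, n1, ⟨b1, b2, b3⟩, h4, h5⟩
    have h4' : m = m1 ∨ (c % 2 = 0 ∧ lt z m m1) ∨ (c % 2 ≠ 0 ∧ lt z m1 m) := by
      rwa [lt'_same hm b1, lt'_same b1 hm] at h4
    have h5' : n = n1 ∨ lt z n1 n := by rwa [lt'_same b2 hn] at h5
    obtain ⟨t1, t2, t3, t4⟩ := hT
    interval_cases c
    · have h6 : rel z i m1 n1 := b3.2 (by norm_num)
      refine ⟨fun _ => by norm_num, fun _ => ?_⟩
      have h7 : rel z i m n1 := by
        rcases h4' with rfl | ⟨-, h4'⟩ | ⟨h4', -⟩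
        · exact h6
        · exact t1 (Or.inl rfl) m1 m n1 b1 hm b2 h4' h6
        · exact absurd rfl h4'
      rcases h5' with rfl | h5'
      · exact h7
      · exact t3 (Or.inl rfl) m n1 n hm b2 hn h5' h7
    · have h6 : rel z i m1 n1 := b3.2 (by norm_num)
      refine ⟨fun _ => by norm_num, fun _ => ?_⟩
      have h7 : rel z i m n1 := by
        rcases h4' with rfl | ⟨h4', -⟩ | ⟨-, h4'⟩
        · exact h6
        · exact absurd h4' (by norm_num)
        · exact t2 (Or.inl rfl) m1 m n1 b1 hm b2 h4' h6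
      rcases h5' with rfl | h5'
      · exact h7
      · exact t3 (Or.inr rfl) m n1 n hm b2 hn h5' h7
    · have h6 : ¬ rel z i m1 n1 := fun hr => absurd (b3.1 hr) (by norm_num)
      refine ⟨fun hr => (h6 ?_).elim, fun h => absurd h (by norm_num)⟩
      have h7 : rel z i m1 n := by
        rcases h4' with rfl | ⟨-, h4'⟩ | ⟨h4', -⟩
        · exact hr
        · exact t2 (Or.inr rfl) m m1 n hm b1 hn h4' hr
        · exact absurd rfl h4'
      rcases h5' with rfl | h5'
      · exact h7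
      · exact t4 (Or.inl rfl) m1 n n1 b1 hn b2 h5' h7
    · have h6 : ¬ rel z i m1 n1 := fun hr => absurd (b3.1 hr) (by norm_num)
      refine ⟨fun hr => (h6 ?_).elim, fun h => absurd h (by norm_num)⟩
      have h7 : rel z i m1 n := by
        rcases h4' with rfl | ⟨h4', -⟩ | ⟨-, h4'⟩
        · exact hr
        · exact absurd h4' (by norm_num)
        · exact t1 (Or.inr rfl) m m1 n hm b1 hn h4' hr
      rcases h5' with rfl | h5'
      · exact h7
      · exact t4 (Or.inr rfl) m1 n n1 b1 hn b2 h5' h7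
  · intro h
    exact ⟨hT, m, n, ⟨hm, hn, h⟩, Or.inl rfl, Or.inl rfl⟩

theorem Ty_exists (h : MS z) (i p q : ℕ) : ∃ c, c < 4 ∧ Ty z c i p q := by
  have f : inc1 z i p q ∨ dec1 z i p q := by
    rcases h.fst i p q with h1 | h1
    · exact Or.inl fun m m' n a b c => h1 m m' n a.1 b.1 c.1
    · exact Or.inr fun m m' n a b c => h1 m m' n a.1 b.1 c.1
  have s : inc2 z i p q ∨ dec2 z i p q := by
    rcases h.snd i p q with h1 | h1
    · exact Or.inl fun m m' n a b c => h1 m m' n a.1 b.1 c.1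
    · exact Or.inr fun m m' n a b c => h1 m m' n a.1 b.1 c.1
  rcases f with f | f <;> rcases s with s | s
  · exact ⟨1, by norm_num, by simp, fun _ => f, fun _ => s, by simp⟩
  · exact ⟨2, by norm_num, by simp, fun _ => f, by simp, fun _ => s⟩
  · exact ⟨0, by norm_num, fun _ => f, by simp, fun _ => s, by simp⟩
  · exact ⟨3, by norm_num, fun _ => f, by simp, by simp, fun _ => s⟩

theorem pat'_cS (p m : ℕ) : pat' (cS z) p m ↔ pat z p m := by
  have e : ∀ p m, co (cS z) (2 * p) m ↔ co z p m := by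
    intro p m
    simp only [cS, co_mk]
    rw [if_pos (by omega), show 2 * p / 2 = p by omega]
  unfold pat' pat
  simp only [e]

theorem relD_cS (h : MS z) (i m n : ℕ) : relD (cS z) i m n ↔ rel z i m n := by
  have e1 : ∀ c p q m, c < 4 → (co (cS z) (2 * kk c i p q + 1) m ↔ Ty z c i p q) := by
    intro c p q m hc
    simp only [cS, co_mk]
    rw [if_neg (by omega), show (2 * kk c i p q + 1) / 2 = kk c i p q by omega, kc_kk hc,
      ki_kk hc, kp_kk hc, kq_kk hc]
  have e2 : ∀ c p q m n, c < 4 → (ac (cS z) (kk c i p q) m n ↔ hul z c i p q m n) := by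
    intro c p q m n hc
    simp only [cS, ac_mk]
    rw [kc_kk hc, ki_kk hc, kp_kk hc, kq_kk hc]
  constructor
  · rintro ⟨p, q, c, hc, hm, hn, h1, h2⟩
    rw [pat'_cS] at hm hn
    rw [e1 c p q m hc] at h1
    rw [e2 c p q m n hc, hul_iff hc h1 hm hn] at h2
    by_cases h3 : c < 2
    · exact (h2.2 h3).2 h3
    · by_contra h4
      exact h3 (h2.1 ⟨fun h5 => absurd h5 h4, fun h5 => absurd h5 h3⟩)
  · intro h1
    obtain ⟨p, hp⟩ := pat_exists h m
    obtain ⟨q, hq⟩ := pat_exists h n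
    obtain ⟨c, hc, hT⟩ := Ty_exists h i p q
    refine ⟨p, q, c, hc, (pat'_cS _ _).2 hp, (pat'_cS _ _).2 hq, (e1 c p q m hc).2 hT, ?_⟩
    rw [e2 c p q m n hc, hul_iff hc hT hp hq]
    exact ⟨fun h2 => h2.1 h1, fun h2 => ⟨fun _ => h2, fun _ => h1⟩⟩

theorem dS_cS (h : MS z) : dS (cS z) = z := by
  refine R2_ext ?_ ?_ ?_
  · intro m n
    simp only [dS, lt_mk]
    rw [relD_cS h]
    rfl
  · intro i m n
    simp only [dS, ac_mk]
    rw [relD_cS h]
    rfl
  · intro p m
    simp only [dS, co_mk, cS]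
    rw [if_pos (by omega), show 2 * p / 2 = p by omega]

end

/-- Vaught's conjecture for sorted structures. -/
theorem vcu_MS : VCu (MS : R2 → Prop) := by
  have s4 := Pool.Agent.TH425.FF.pexp_vcu pcS vcu_MAr coan_MAr inv_MAr
  intro B hB hi hV
  exact s4 B hB hi fun x hx => ⟨[], MAr_cS (hV x hx), dS_cS (hV x hx)⟩

end Pool.Agent.Y558.MC
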