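import Pool.Agent.Y558.MT.Fin

set_option autoImplicit false

/-!
# The class of linear orders with monotone and antitone relations, as a tame class
-/

namespace Pool.Agent.Y558.MC

open Set MeasureTheory
open Pool.Agent.Y558.MT (XM MA IsoM out)
open Pool.Agent.H533R2.VO (RS Dich VC RIso)
open Pool.Agent.H566P (ar R2 v2 lt ac co mk)
open Pool.Agent.Y560.TG (lt_mk ac_mk co_mk R2_ext riso_iff meas_into cont_into)
open Pool.Agent.H533R2.VS (US UIso UDich VCu Coan Inv)
open Pool.Agent.Y558.MB (clopen_lt clopen_ac clopen_co mset_lt mset_ac mset_co vcu_of_vc lt_spl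
  ac_spl co_spl)

/-- linear orders with monotone and antitone relations -/
structure MAr (z : R2) : Prop where
  irr : ∀ m, ¬ lt z m m
  tr : ∀ m n k, lt z m n → lt z n k → lt z m k
  tot : ∀ m n, m = n ∨ lt z m n ∨ lt z n m
  down : ∀ i m m' n, i % 2 = 0 → lt z m' m → ac z i m n → ac z i m' n
  up : ∀ i m m' n, i % 2 ≠ 0 → lt z m m' → ac z i m n → ac z i m' n
  right : ∀ i m n n', lt z n n' → ac z i m n → ac z i m n'

noncomputable def toR (x : XM) : R2 :=
  mk (fun m n => x.1 m n = true) (fun k m n => x.2.1 k m n = true) (fun i m => x.2.2 i m = true)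

def ofR (z : R2) : XM :=
  (fun m n => z 0 (v2 0 m n), fun k m n => z (2 * k + 1) (v2 (2 * k + 1) m n),
    fun i m => z (2 * i + 2) (v2 (2 * i + 2) m m))

theorem toR_ofR (z : R2) : toR (ofR z) = z := by
  refine R2_ext ?_ ?_ ?_
  · intro m n
    simp only [toR, lt_mk]
    rfl
  · intro k m n
    simp only [toR, ac_mk]
    rfl
  · intro k m
    simp only [toR, co_mk]
    rfl

theorem cl_of_bool {X : Type} [TopologicalSpace X] {f : X → Bool} (hf : Continuous f) :
    IsClopen {x | f x = true} := (isClopen_discrete ({true} : Set Bool)).preimage hf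

theorem cont_toR : Continuous toR := by
  refine cont_into ?_ ?_ ?_
  · intro m n
    simp only [toR, lt_mk]
    exact cl_of_bool ((continuous_apply n).comp ((continuous_apply m).comp continuous_fst))
  · intro k m n
    simp only [toR, ac_mk]
    exact cl_of_bool ((continuous_apply n).comp ((continuous_apply m).comp
      ((continuous_apply k).comp (continuous_fst.comp continuous_snd))))
  · intro k m
    simp only [toR, co_mk]
    exact cl_of_bool ((continuous_apply m).comp ((continuous_apply k).comp
      (continuous_snd.comp continuous_snd)))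

theorem meas_toR : Measurable toR := by
  refine meas_into ?_ ?_ ?_
  · intro m n
    simp only [toR, lt_mk]
    exact measurableSet_setOfPred.2 (MT.meas_o m n)
  · intro k m n
    simp only [toR, ac_mk]
    exact measurableSet_setOfPred.2 (MT.meas_rel k m n)
  · intro k m
    simp only [toR, co_mk]
    exact measurableSet_setOfPred.2 (MT.meas_beq ((measurable_pi_apply m).comp
      ((measurable_pi_apply k).comp (measurable_snd.comp measurable_snd))))

theorem MA_of {x : XM} (h : MAr (toR x)) : MA x := by
  have e1 : ∀ m n, lt (toR x) m n ↔ x.1 m n = true := by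
    intro m n
    simp only [toR, lt_mk]
  have e2 : ∀ k m n, ac (toR x) k m n ↔ x.2.1 k m n = true := by
    intro k m n
    simp only [toR, ac_mk]
  refine ⟨fun m => ?_, ?_, ?_, ?_, ?_, ?_⟩
  · have := h.irr m
    rw [e1] at this
    exact Bool.not_eq_true _ ▸ this
  · intro m n k
    have := h.tr m n k
    simpa only [e1] using this
  · intro m n
    have := h.tot m n
    simpa only [e1] using this
  · intro i m m' n hi
    have := h.down i m m' n hi
    simpa only [e1, e2] using this
  · intro i m m' n hi
    have := h.up i m m' n hi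
    simpa only [e1, e2] using this
  · intro i m n n'
    have := h.right i m n n'
    simpa only [e1, e2] using this

theorem toR_iso {x y : XM} : RIso (toR x) (toR y) ↔ ∃ σ : Equiv.Perm ℕ, IsoM σ x y := by
  rw [riso_iff]
  refine exists_congr fun σ => ?_
  simp only [toR, lt_mk, ac_mk, co_mk]
  constructor
  · rintro ⟨h1, h2, h3⟩
    exact ⟨fun m n => Bool.eq_iff_iff.2 (h1 m n), fun i m n => Bool.eq_iff_iff.2 (h2 i m n),
      fun i m => Bool.eq_iff_iff.2 (h3 i m)⟩
  · rintro ⟨h1, h2, h3⟩
    exact ⟨fun m n => by rw [h1], fun i m n => by rw [h2], fun i m => by rw [h3]⟩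

theorem vc_MAr : VC (MAr : R2 → Prop) := by
  intro B hB hi hV
  rcases out (toR ⁻¹' B) (meas_toR hB) (fun x hx => MA_of (hV _ hx))
    (fun x hx y σ hσ => (hi _ _ (toR_iso.2 ⟨σ, hσ⟩)).1 hx) with ⟨f, hf⟩ | ⟨c, hc, hcB, hcI⟩
  · left
    refine ⟨fun n => toR (f n), fun z hz => ?_⟩
    obtain ⟨n, hn⟩ := hf (ofR z) (by show toR (ofR z) ∈ B; rw [toR_ofR]; exact hz)
    refine ⟨n, ?_⟩
    have := toR_iso.2 hn
    rwa [toR_ofR] at this
  · right
    exact ⟨fun α => toR (c α), cont_toR.comp hc, hcB, fun α β h => hcI α β (toR_iso.1 h)⟩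

theorem vcu_MAr : VCu (MAr : R2 → Prop) := by
  refine vcu_of_vc ?_ vc_MAr
  intro z h
  refine ⟨?_, ?_, ?_, ?_, ?_, ?_⟩
  · have := h.irr
    simpa only [lt_spl] using this
  · have := h.tr
    simpa only [lt_spl] using this
  · have := h.tot
    simpa only [lt_spl] using this
  · have := h.down
    simpa only [lt_spl, ac_spl] using this
  · have := h.up
    simpa only [lt_spl, ac_spl] using this
  · have := h.right
    simpa only [lt_spl, ac_spl] using this

theorem MAr_iff (z : R2) : MAr z ↔ (∀ m, ¬ lt z m m) ∧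
    (∀ m n k, lt z m n → lt z n k → lt z m k) ∧ (∀ m n, m = n ∨ lt z m n ∨ lt z n m) ∧
    (∀ i m m' n, i % 2 = 0 → lt z m' m → ac z i m n → ac z i m' n) ∧
    (∀ i m m' n, i % 2 ≠ 0 → lt z m m' → ac z i m n → ac z i m' n) ∧
    (∀ i m n n', lt z n n' → ac z i m n → ac z i m n') :=
  ⟨fun h => ⟨h.1, h.2, h.3, h.4, h.5, h.6⟩, fun h => ⟨h.1, h.2.1, h.2.2.1, h.2.2.2.1, h.2.2.2.2.1,
    h.2.2.2.2.2⟩⟩

theorem meas_MAr : MeasurableSet {z : R2 | MAr z} := by
  refine measurableSet_setOfPred.2 ?_
  have e : (MAr : R2 → Prop) = _ := funext fun R => propext (MAr_iff R)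
  rw [e]
  refine Measurable.and (Measurable.forall fun x => (mset_lt x x).not) (Measurable.and ?_
    (Measurable.and ?_ (Measurable.and ?_ (Measurable.and ?_ ?_))))
  · exact Measurable.forall fun x => Measurable.forall fun y => Measurable.forall fun z =>
      (mset_lt x y).imp ((mset_lt y z).imp (mset_lt x z))
  · exact Measurable.forall fun a => Measurable.forall fun b =>
      measurable_const.or ((mset_lt a b).or (mset_lt b a))
  · exact Measurable.forall fun n => Measurable.forall fun x => Measurable.forall fun y =>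
      Measurable.forall fun z => measurable_const.imp ((mset_lt y x).imp
        ((mset_ac n x z).imp (mset_ac n y z)))
  · exact Measurable.forall fun n => Measurable.forall fun x => Measurable.forall fun y =>
      Measurable.forall fun z => measurable_const.imp ((mset_lt x y).imp
        ((mset_ac n x z).imp (mset_ac n y z)))
  · exact Measurable.forall fun n => Measurable.forall fun x => Measurable.forall fun y =>
      Measurable.forall fun z => (mset_lt y z).imp
        ((mset_ac n x y).imp (mset_ac n x z))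

theorem coan_MAr : Coan (MAr : R2 → Prop) := by
  have hP : PolishSpace (RS ar) := Pool.Agent.H533R2.VS.kis_pRS ar
  exact MeasurableSet.analyticSet meas_MAr.compl

theorem inv_MAr : Inv (MAr : R2 → Prop) := by
  rintro R R' hR h
  obtain ⟨σ, h1, h2, h3⟩ := riso_iff.1 hR
  have e1 : ∀ x y, lt R' x y ↔ lt R (σ.symm x) (σ.symm y) := by
    intro x y
    rw [← h1, Equiv.apply_symm_apply, Equiv.apply_symm_apply]
  have e2 : ∀ n x y, ac R' n x y ↔ ac R n (σ.symm x) (σ.symm y) := by
    intro n x y
    rw [← h2, Equiv.apply_symm_apply, Equiv.apply_symm_apply]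
  refine ⟨fun m => ?_, fun m n k => ?_, fun m n => ?_, fun i m m' n hi => ?_,
    fun i m m' n hi => ?_, fun i m n n' => ?_⟩
  · rw [e1]
    exact h.irr _
  · rw [e1, e1, e1]
    exact h.tr _ _ _
  · rw [e1, e1]
    rcases h.tot (σ.symm m) (σ.symm n) with h4 | h4
    · exact Or.inl (σ.symm.injective h4)
    · exact Or.inr h4
  · rw [e1, e2, e2]
    exact h.down _ _ _ _ hi
  · rw [e1, e2, e2]
    exact h.up _ _ _ _ hi
  · rw [e1, e2, e2]
    exact h.right _ _ _ _

end Pool.Agent.Y558.MC
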